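import Mathlib
import Pool.Agent.L7h3.SC.Stm

namespace Pool.Agent.L7h30.SC
open Filter Topology
open Pool.Agent.L7h3.SC

theorem s_ORT : S_ORT := by
  intro E _ _ _ hdim w a b hw ha hab hbb
  have haW : ∀ c : ℝ, a ≠ c • w := by
    intro c hc
    have h := hab (-c)
    rw [hc] at h
    rw [neg_smul, add_neg_cancel, norm_zero] at h
    have : ‖c • w‖ = 0 := le_antisymm h (norm_nonneg _)
    exact ha (by rw [hc]; exact norm_eq_zero.mp this)
  have hli : LinearIndependent ℝ ![a, w] := by
    rw [LinearIndependent.pair_iff]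
    intro s t hst
    have hs : s = 0 := by
      by_contra hs
      apply haW (-(t / s))
      have : s • a = -(t • w) := by
        rw [eq_neg_iff_add_eq_zero]; exact hst
      have h2 : a = s⁻¹ • (s • a) := by rw [smul_smul, inv_mul_cancel₀ hs, one_smul]
      rw [h2, this, smul_neg, smul_smul, neg_smul]
      congr 2
      field_simp
    refine ⟨hs, ?_⟩
    rw [hs, zero_smul, zero_add] at hst
    rcases smul_eq_zero.mp hst with h | h
    · exact h
    · exact absurd h hw
  have hfd : FiniteDimensional ℝ E := Module.finite_of_finrank_pos (by omega)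
  have hspan : Submodule.span ℝ (Set.range ![a, w]) = ⊤ := by
    apply hli.span_eq_top_of_card_eq_finrank'
    simp [hdim]
  have hb : b ∈ Submodule.span ℝ (Set.range ![a, w]) := by rw [hspan]; trivial
  have hr : Set.range ![a, w] = {a, w} := by
    ext z; simp [Matrix.range_cons, Matrix.range_empty, eq_comm, or_comm]
  rw [hr, Submodule.mem_span_pair] at hb
  obtain ⟨r, m, hb⟩ := hb
  refine ⟨r, ?_⟩
  by_cases hm : m = 0
  · rw [← hb, hm, zero_smul, add_zero]
  exfalso
  -- scaled orthogonality
  have hra : ∀ t : ℝ, ‖r • a‖ ≤ ‖r • a + t • w‖ := by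
    intro t
    by_cases h0 : r = 0
    · rw [h0, zero_smul, norm_zero]; exact norm_nonneg _
    · have h := hab (r⁻¹ * t)
      have h2 : r • a + t • w = r • (a + (r⁻¹ * t) • w) := by
        rw [smul_add, smul_smul, ← mul_assoc, mul_inv_cancel₀ h0, one_mul]
      rw [h2, norm_smul, norm_smul]
      exact mul_le_mul_of_nonneg_left h (norm_nonneg _)
  have h1 : ‖r • a + m • w‖ ≤ ‖r • a‖ := by
    have h := hbb (-m)
    rw [← hb] at h
    have h2 : r • a + m • w + (-m) • w = r • a := by
      rw [neg_smul, add_neg_cancel_right]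
    rwa [h2] at h
  have heq : ‖r • a + m • w‖ = ‖r • a‖ := le_antisymm h1 (hra m)
  have hne : r • a ≠ r • a + m • w := by
    intro h
    have : m • w = 0 := by
      have := h.symm
      rwa [add_eq_left] at this
    rcases smul_eq_zero.mp this with h | h
    · exact hm h
    · exact hw h
  have hlt : ‖(1 / 2 : ℝ) • (r • a) + (1 / 2 : ℝ) • (r • a + m • w)‖ < ‖r • a‖ :=
    norm_combo_lt_of_ne le_rfl heq.le hne (by norm_num) (by norm_num) (by norm_num)
  have h3 := hra (m / 2)
  have h4 : (1 / 2 : ℝ) • (r • a) + (1 / 2 : ℝ) • (r • a + m • w) = r • a + (m / 2) • w := by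
    module
  rw [h4] at hlt
  exact absurd h3 (not_le.mpr hlt)

end Pool.Agent.L7h30.SC
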