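import Mathlib
import Pool.Agent.L7h3.SC.Stm

namespace Pool.Agent.L7h30.SC
open Filter Topology
open Pool.Agent.L7h3.SC

theorem conv_norm {E : Type} [NormedAddCommGroup E] [NormedSpace ℝ E] (p u : E) (d t : ℝ) (hd : 0 < d)
    (heq : ‖p + d • u‖ = ‖p‖) (ht : t ≤ 0 ∨ d ≤ t) : ‖p‖ ≤ ‖p + t • u‖ := by
  rcases ht with ht | ht
  · have hdt : 0 < d - t := by linarith
    have e : p = (d / (d - t)) • (p + t • u) + (-t / (d - t)) • (p + d • u) := by
      have h1 : (1 : ℝ) = d / (d - t) + (-t / (d - t)) := by field_simp; ring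
      have h2 : d / (d - t) * t + (-t / (d - t)) * d = 0 := by field_simp; ring
      calc p = (1 : ℝ) • p + (0 : ℝ) • u := by simp
        _ = (d / (d - t) + (-t / (d - t))) • p + (d / (d - t) * t + (-t / (d - t)) * d) • u := by
          rw [← h1, h2]
        _ = _ := by module
    have h3 : ‖p‖ ≤ (d / (d - t)) * ‖p + t • u‖ + (-t / (d - t)) * ‖p‖ := by
      calc ‖p‖ = ‖(d / (d - t)) • (p + t • u) + (-t / (d - t)) • (p + d • u)‖ := by rw [← e]
        _ ≤ ‖(d / (d - t)) • (p + t • u)‖ + ‖(-t / (d - t)) • (p + d • u)‖ := norm_add_le _ _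
        _ = (d / (d - t)) * ‖p + t • u‖ + (-t / (d - t)) * ‖p‖ := by
          rw [norm_smul, norm_smul, heq, Real.norm_of_nonneg (by positivity),
            Real.norm_of_nonneg (div_nonneg (by linarith) hdt.le)]
    have h4 : ‖p‖ * (d - t) ≤ d * ‖p + t • u‖ + (-t) * ‖p‖ := by
      have := mul_le_mul_of_nonneg_right h3 hdt.le
      have e2 : ((d / (d - t)) * ‖p + t • u‖ + (-t / (d - t)) * ‖p‖) * (d - t) =
          d * ‖p + t • u‖ + (-t) * ‖p‖ := by field_simp
      rwa [e2] at this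
    have h5 : d * ‖p‖ ≤ d * ‖p + t • u‖ := by linarith
    exact le_of_mul_le_mul_left h5 hd
  · have htp : 0 < t := lt_of_lt_of_le hd ht
    have e : p + d • u = (1 - d / t) • p + (d / t) • (p + t • u) := by
      have h2 : d / t * t = d := by field_simp
      calc p + d • u = p + (d / t * t) • u := by rw [h2]
        _ = _ := by module
    have h1 : 0 ≤ 1 - d / t := by
      rw [sub_nonneg, div_le_one htp]; exact ht
    have h3 : ‖p‖ ≤ (1 - d / t) * ‖p‖ + (d / t) * ‖p + t • u‖ := by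
      calc ‖p‖ = ‖p + d • u‖ := heq.symm
        _ = ‖(1 - d / t) • p + (d / t) • (p + t • u)‖ := by rw [e]
        _ ≤ ‖(1 - d / t) • p‖ + ‖(d / t) • (p + t • u)‖ := norm_add_le _ _
        _ = _ := by
          rw [norm_smul, norm_smul, Real.norm_of_nonneg h1, Real.norm_of_nonneg (by positivity)]
    have h5 : (d / t) * ‖p‖ ≤ (d / t) * ‖p + t • u‖ := by linarith
    exact le_of_mul_le_mul_left h5 (by positivity)

theorem s_TAN : S_TAN := by
  intro E _ _ z z' l A w hz hz' hne hd hw t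
  -- eventual inequality
  have hu : ∀ n, 0 < ‖z n - z' n‖ := fun n => norm_pos_iff.mpr (sub_ne_zero.mpr (hne n))
  have hdn : Tendsto (fun n => ‖z n - z' n‖) atTop (𝓝 0) := by
    have := (hz.sub hz').norm
    simpa using this
  have hev : ∀ᶠ n in atTop, ‖z' n - A‖ ≤
      ‖z' n - A + t • (‖z n - z' n‖⁻¹ • (z n - z' n))‖ := by
    have key : ∀ n, (t ≤ 0 ∨ ‖z n - z' n‖ ≤ t) → ‖z' n - A‖ ≤
      ‖z' n - A + t • (‖z n - z' n‖⁻¹ • (z n - z' n))‖ := by
      intro n hn
      refine conv_norm _ _ ‖z n - z' n‖ t (hu n) ?_ hn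
      rw [smul_smul, mul_inv_cancel₀ (hu n).ne', one_smul]
      have := hd n
      rw [dist_eq_norm, dist_eq_norm] at this
      rw [← this]
      congr 1
      abel
    rcases le_or_gt t 0 with ht | ht
    · exact Eventually.of_forall fun n => key n (Or.inl ht)
    · filter_upwards [hdn.eventually (ge_mem_nhds ht)] with n hn
      exact key n (Or.inr hn)
  have h1 : Tendsto (fun n => ‖z' n - A‖) atTop (𝓝 ‖l - A‖) := (hz'.sub_const A).norm
  have h2 : Tendsto (fun n => ‖z' n - A + t • (‖z n - z' n‖⁻¹ • (z n - z' n))‖) atTop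
      (𝓝 ‖l - A + t • w‖) := ((hz'.sub_const A).add (hw.const_smul t)).norm
  exact le_of_tendsto_of_tendsto h1 h2 hev

end Pool.Agent.L7h30.SC
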