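import Mathlib
import Pool.Agent.L7h3.SC.Stm

namespace Pool.Agent.L7h30.SC
open Cardinal

/-- one step of the closure -/
def stepC {X : Type} (FF : Set (Set X)) (k : ℕ) (A : Set X) : Set X :=
  A ∪ ⋃ K : {K : Finset X // K.card = k ∧ (K : Set X) ⊆ A},
    ⋃ F : {F : Set X // F ∈ FF ∧ (K.1 : Set X) ⊆ F}, F.1

/-- the closure -/
def clC {X : Type} (FF : Set (Set X)) (k : ℕ) (A : Set X) : Set X :=
  ⋃ n : ℕ, (stepC FF k)^[n] A

theorem stepC_mono {X : Type} (FF : Set (Set X)) (k : ℕ) : Monotone (stepC FF k) := by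
  intro A B hAB x hx
  rcases hx with hx | hx
  · exact Or.inl (hAB hx)
  · right
    rw [Set.mem_iUnion] at hx ⊢
    obtain ⟨K, hx⟩ := hx
    exact ⟨⟨K.1, K.2.1, K.2.2.trans hAB⟩, hx⟩

theorem iter_mono {X : Type} (FF : Set (Set X)) (k : ℕ) (n : ℕ) :
    Monotone ((stepC FF k)^[n]) := (stepC_mono FF k).iterate n

theorem iter_le {X : Type} (FF : Set (Set X)) (k : ℕ) (A : Set X) (n : ℕ) :
    (stepC FF k)^[n] A ⊆ (stepC FF k)^[n + 1] A := by
  rw [Function.iterate_succ_apply']
  exact Set.subset_union_left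

theorem iter_le' {X : Type} (FF : Set (Set X)) (k : ℕ) (A : Set X) :
    Monotone (fun n => (stepC FF k)^[n] A) := monotone_nat_of_le_succ (iter_le FF k A)

theorem card_step {X : Type} (FF : Set (Set X)) (k : ℕ) (hF : ∀ F ∈ FF, F.Countable)
    (hK : ∀ K : Finset X, K.card = k → {F | F ∈ FF ∧ (K : Set X) ⊆ F}.Countable) (A : Set X) :
    #(stepC FF k A) ≤ max #A ℵ₀ := by
  have h1 : #(stepC FF k A) ≤ #A + #(⋃ K : {K : Finset X // K.card = k ∧ (K : Set X) ⊆ A},
    ⋃ F : {F : Set X // F ∈ FF ∧ (K.1 : Set X) ⊆ F}, F.1 : Set X) := mk_union_le _ _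
  have hKc : #{K : Finset X // K.card = k ∧ (K : Set X) ⊆ A} ≤ max #A ℵ₀ := by
    classical
    have hinj : Function.Injective (fun K : {K : Finset X // K.card = k ∧ (K : Set X) ⊆ A} =>
        (K.1.subtype (fun x => x ∈ A) : Finset A)) := by
      intro K K' h
      apply Subtype.ext
      have h' := congrArg (fun s : Finset A => s.map (Function.Embedding.subtype _)) h
      simp only [Finset.subtype_map] at h'
      rw [Finset.filter_true_of_mem (fun x hx => K.2.2 hx),
        Finset.filter_true_of_mem (fun x hx => K'.2.2 hx)] at h'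
      exact h'
    refine (mk_le_of_injective hinj).trans ?_
    rcases finite_or_infinite A with hfin | hinf
    · exact (mk_le_aleph0).trans (le_max_right _ _)
    · rw [Cardinal.mk_finset_of_infinite]
      exact le_max_left _ _
  have hsub : ∀ K : {K : Finset X // K.card = k ∧ (K : Set X) ⊆ A},
      (⋃ F : {F : Set X // F ∈ FF ∧ (K.1 : Set X) ⊆ F}, F.1 : Set X).Countable := by
    intro K
    have hc : Countable {F : Set X // F ∈ FF ∧ (K.1 : Set X) ⊆ F} := (hK K.1 K.2.1).to_subtype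
    exact Set.countable_iUnion fun F => hF F.1 F.2.1
  have h2 : #(⋃ K : {K : Finset X // K.card = k ∧ (K : Set X) ⊆ A},
    ⋃ F : {F : Set X // F ∈ FF ∧ (K.1 : Set X) ⊆ F}, F.1 : Set X) ≤ max #A ℵ₀ := by
    refine (mk_iUnion_le _).trans ?_
    have : (⨆ K : {K : Finset X // K.card = k ∧ (K : Set X) ⊆ A},
      #(⋃ F : {F : Set X // F ∈ FF ∧ (K.1 : Set X) ⊆ F}, F.1 : Set X)) ≤ ℵ₀ := by
      apply ciSup_le'
      intro K
      exact (hsub K).le_aleph0
    refine (mul_le_mul' hKc this).trans ?_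
    rw [mul_eq_max_of_aleph0_le_right (by
      intro h0
      have := le_max_right #A ℵ₀
      rw [h0] at this
      exact absurd this (not_le.mpr aleph0_pos)) le_rfl]
    exact max_le le_rfl (le_max_right _ _)
  refine h1.trans ?_
  refine (add_le_add (le_max_left _ ℵ₀) h2).trans ?_
  rw [add_eq_self (le_max_right _ _)]

/-- closure lemma for the proof of PB -/
theorem clo (X : Type) (FF : Set (Set X)) (k : ℕ) (hF : ∀ F ∈ FF, F.Countable)
    (hK : ∀ K : Finset X, K.card = k → {F | F ∈ FF ∧ (K : Set X) ⊆ F}.Countable) :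
    ∃ cl : Set X → Set X, Monotone cl ∧ (∀ A, A ⊆ cl A) ∧ (∀ A, #(cl A) ≤ max #A ℵ₀) ∧
      ∀ A, ∀ F ∈ FF, ∀ K : Finset X, K.card = k → (K : Set X) ⊆ F → (K : Set X) ⊆ cl A → F ⊆ cl A := by
  refine ⟨clC FF k, ?_, ?_, ?_, ?_⟩
  · intro A B hAB x hx
    simp only [clC, Set.mem_iUnion] at hx ⊢
    obtain ⟨n, hx⟩ := hx
    exact ⟨n, iter_mono FF k n hAB hx⟩
  · intro A x hx
    simp only [clC, Set.mem_iUnion]
    exact ⟨0, hx⟩
  · intro A
    have hn : ∀ n : ℕ, #((stepC FF k)^[n] A) ≤ max #A ℵ₀ := by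
      intro n
      induction n with
      | zero => exact le_max_left _ _
      | succ n ih =>
        rw [Function.iterate_succ_apply']
        refine (card_step FF k hF hK _).trans ?_
        exact max_le ih (le_max_right _ _)
    refine (mk_iUnion_le _).trans ?_
    have : (⨆ n : ℕ, #((stepC FF k)^[n] A)) ≤ max #A ℵ₀ := ciSup_le' hn
    refine (mul_le_mul' (mk_nat.le) this).trans ?_
    rw [aleph0_mul_eq (le_max_right _ _)]
  · intro A F hFF K hKc hKF hKA
    -- the finite set K is in some stage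
    have hst : ∃ n : ℕ, (K : Set X) ⊆ (stepC FF k)^[n] A := by
      have hd : Directed (· ⊆ ·) (fun n => (stepC FF k)^[n] A) :=
        (iter_le' FF k A).directed_le
      exact hd.exists_mem_subset_of_finset_subset_biUnion (s := K) hKA
    obtain ⟨n, hn⟩ := hst
    intro x hx
    simp only [clC, Set.mem_iUnion]
    refine ⟨n + 1, ?_⟩
    rw [Function.iterate_succ_apply']
    right
    rw [Set.mem_iUnion]
    refine ⟨⟨K, hKc, hn⟩, ?_⟩
    rw [Set.mem_iUnion]
    exact ⟨⟨F, hFF, hKF⟩, hx⟩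

end Pool.Agent.L7h30.SC
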